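import Pool.Agent.Helper17.RS.Sheet

/-! # Row SIEVE of the sheet for the ranks six and seven (MP_798d7d) -/

set_option autoImplicit false

namespace Pool.Helper17.RS

open Finset

lemma h34_sq (N q : ℕ) (hq : 1000 < q) :
    (((N / q + 1) ^ 2 : ℕ) : ℝ) ≤ 4 * (N : ℝ) ^ 2 * ((q : ℝ) ^ 2)⁻¹ + 1 := by
  have hq0 : (0 : ℝ) < q := by exact_mod_cast (by omega : 0 < q)
  rcases Nat.lt_or_ge N q with h | h
  · rw [Nat.div_eq_of_lt h]
    have : 0 ≤ 4 * (N : ℝ) ^ 2 * ((q : ℝ) ^ 2)⁻¹ := by positivity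
    push_cast
    linarith
  · have h1 : ((N / q : ℕ) : ℝ) ≤ (N : ℝ) / q := Nat.cast_div_le
    have h2 : (1 : ℝ) ≤ (N : ℝ) / q := by
      rw [le_div_iff₀ hq0]
      have : (q : ℝ) ≤ N := by exact_mod_cast h
      linarith
    have h3 : ((N / q + 1 : ℕ) : ℝ) ≤ 2 * ((N : ℝ) / q) := by
      push_cast
      linarith
    have h4 : (((N / q + 1) ^ 2 : ℕ) : ℝ) ≤ (2 * ((N : ℝ) / q)) ^ 2 := by
      rw [Nat.cast_pow]
      exact pow_le_pow_left₀ (Nat.cast_nonneg _) h3 2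
    have h5 : (2 * ((N : ℝ) / q)) ^ 2 = 4 * (N : ℝ) ^ 2 * ((q : ℝ) ^ 2)⁻¹ := by
      rw [mul_pow, div_pow, div_eq_mul_inv]
      ring
    linarith

lemma h34_sum (M : ℕ) : ∑ q ∈ Ioc 1000 M, ((q : ℝ) ^ 2)⁻¹ ≤ 1 / 1000 := by
  rcases Nat.lt_or_ge M 1000 with h | h
  · rw [Ioc_eq_empty_of_le h.le]
    norm_num
  · have := sum_Ioc_inv_sq_le_sub (α := ℝ) (k := 1000) (n := M) (by norm_num) h
    have h2 : (0 : ℝ) ≤ (M : ℝ)⁻¹ := by positivity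
    calc _ ≤ ((1000 : ℕ) : ℝ)⁻¹ - (M : ℝ)⁻¹ := this
      _ ≤ 1 / 1000 := by norm_num

open Classical in
theorem st_SIEVE : ST_SIEVE := by
  intro A B h C
  refine ⟨200 * C + 1, ?_⟩
  intro N hN
  have hN1 : 1 ≤ N := by omega
  set Q : Finset ℕ := (Ioc 1000 (C * N)).filter Nat.Prime with hQ
  have h1 : ((Box N).filter (fun t => ∃ q : ℕ, q.Prime ∧ 1000 < q ∧ q ≤ C * N ∧
      (q : ℤ) ∣ A t ∧ (q : ℤ) ∣ B t)) ⊆
      Q.biUnion (fun q => (Box N).filter (fun t => (q : ℤ) ∣ A t ∧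
        (q : ℤ) ∣ B t)) := by
    intro t ht
    rw [mem_filter] at ht
    have ht3 := ht.2
    clear_value Q
    obtain ⟨q, hq⟩ := ht3
    have hqQ : q ∈ Q := by
      rw [hQ]
      exact mem_filter.2 ⟨mem_Ioc.2 ⟨hq.2.1, hq.2.2.1⟩, hq.1⟩
    have ht2 : t ∈ (Box N).filter (fun t => (q : ℤ) ∣ A t ∧ (q : ℤ) ∣ B t) :=
      mem_filter.2 ⟨ht.1, hq.2.2.2⟩
    exact mem_biUnion.2 ⟨q, hqQ, ht2⟩
  have h2 : ((Box N).filter (fun t => ∃ q : ℕ, q.Prime ∧ 1000 < q ∧ q ≤ C * N ∧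
      (q : ℤ) ∣ A t ∧ (q : ℤ) ∣ B t)).card ≤
      ∑ q ∈ Q, 50 * (N / q + 1) ^ 2 * N := by
    refine (card_le_card h1).trans (card_biUnion_le.trans (sum_le_sum fun q hq => ?_))
    rw [hQ, mem_filter, mem_Ioc] at hq
    exact h N q hq.2 hq.1.1
  have h3 : ∑ q ∈ Q, 50 * (N / q + 1) ^ 2 * N ≤
      ∑ q ∈ Ioc 1000 (C * N), 50 * (N / q + 1) ^ 2 * N :=
    sum_le_sum_of_subset (filter_subset _ _)
  have h4 : ((∑ q ∈ Ioc 1000 (C * N), 50 * (N / q + 1) ^ 2 * N : ℕ) : ℝ) ≤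
      50 * (N : ℝ) * (4 * (N : ℝ) ^ 2 * (1 / 1000) + C * N) := by
    rw [Nat.cast_sum]
    have e1 : ∀ q ∈ Ioc 1000 (C * N), ((50 * (N / q + 1) ^ 2 * N : ℕ) : ℝ) ≤
        50 * (N : ℝ) * (4 * (N : ℝ) ^ 2 * ((q : ℝ) ^ 2)⁻¹ + 1) := by
      intro q hq
      rw [mem_Ioc] at hq
      have := h34_sq N q hq.1
      have hc : ((50 * (N / q + 1) ^ 2 * N : ℕ) : ℝ)
          = 50 * (N : ℝ) * (((N / q + 1) ^ 2 : ℕ) : ℝ) := by
        push_cast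
        ring
      rw [hc]
      exact mul_le_mul_of_nonneg_left this (by positivity)
    refine (sum_le_sum e1).trans ?_
    rw [← mul_sum, sum_add_distrib, ← mul_sum, sum_const, Nat.card_Ioc, nsmul_eq_mul, mul_one]
    refine mul_le_mul_of_nonneg_left ?_ (by positivity)
    refine add_le_add (mul_le_mul_of_nonneg_left (h34_sum _) (by positivity)) ?_
    have : ((C * N - 1000 : ℕ) : ℝ) ≤ ((C * N : ℕ) : ℝ) := by
      exact_mod_cast Nat.sub_le _ _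
    push_cast at this
    exact this
  have h5 : (2 : ℝ) * (50 * (N : ℝ) * (4 * (N : ℝ) ^ 2 * (1 / 1000) + C * N)) ≤
      (N : ℝ) ^ 3 := by
    have hC : (200 : ℝ) * C ≤ N := by
      have : (200 * C + 1 : ℕ) ≤ N := hN
      have h' : ((200 * C + 1 : ℕ) : ℝ) ≤ N := by exact_mod_cast this
      push_cast at h'
      linarith
    have e : (2 : ℝ) * (50 * (N : ℝ) * (4 * (N : ℝ) ^ 2 * (1 / 1000) + C * N))
        = (N : ℝ) ^ 2 * (400 / 1000 * N + 100 * C) := by ring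
    have e' : (N : ℝ) ^ 3 = (N : ℝ) ^ 2 * N := by ring
    rw [e, e']
    exact mul_le_mul_of_nonneg_left (by linarith) (by positivity)
  have h6 : ((2 * ((Box N).filter (fun t => ∃ q : ℕ, q.Prime ∧ 1000 < q ∧ q ≤ C * N ∧
      (q : ℤ) ∣ A t ∧ (q : ℤ) ∣ B t)).card : ℕ) : ℝ) ≤ ((N ^ 3 : ℕ) : ℝ) := by
    have h7 : ((((Box N).filter (fun t => ∃ q : ℕ, q.Prime ∧ 1000 < q ∧ q ≤ C * N ∧
      (q : ℤ) ∣ A t ∧ (q : ℤ) ∣ B t)).card : ℕ) : ℝ) ≤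
        ((∑ q ∈ Ioc 1000 (C * N), 50 * (N / q + 1) ^ 2 * N : ℕ) : ℝ) := by
      exact_mod_cast h2.trans h3
    rw [Nat.cast_mul, Nat.cast_pow]
    refine le_trans (mul_le_mul_of_nonneg_left (h7.trans h4) (by norm_num)) ?_
    push_cast
    exact h5
  exact_mod_cast h6

end Pool.Helper17.RS
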