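import Pool.Agent.Helper17.RS.Sheet

/-! # Row SIZE of the sheet for the ranks six and seven (MP_798d7d) -/

set_option autoImplicit false

namespace Pool.Helper17.RS

open Finset

/-- the degrees of the echelon basis -/
def h34_dg : Fin 20 → ℕ := ![0, 1, 1, 1, 2, 2, 2, 2, 2, 2, 3, 3, 3, 3, 3, 3, 3, 3, 3, 3]

set_option maxRecDepth 20000 in
lemma h34_cf : ∀ j i : Fin 20, |cf j i| ≤ 12 ∧
    (cf j i ≠ 0 → (mo i).1 + (mo i).2.1 + (mo i).2.2 ≤ h34_dg j) := by
  decide +kernel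

lemma h34_dgs : ∑ i, h34_dg i = 45 := by decide +kernel

lemma h34_ff {T a b c : ℤ} (hT : 1 ≤ T) (ha : |a - 4| ≤ T) (hb : |b - 7| ≤ T)
    (hc : |c - 11| ≤ T) (j : Fin 20) : |ff j a b c| ≤ 240 * T ^ h34_dg j := by
  have h1 : ∀ i ∈ (univ : Finset (Fin 20)), |((cf j i : ℤ) : ℤ) *
      ((a - 4) ^ (mo i).1 * (b - 7) ^ (mo i).2.1 * (c - 11) ^ (mo i).2.2)| ≤
      12 * T ^ h34_dg j := by
    intro i _
    obtain ⟨h2, h3⟩ := h34_cf j i
    rw [abs_mul]
    by_cases h0 : cf j i = 0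
    · rw [h0]
      simp only [abs_zero, zero_mul]
      positivity
    · have h4 : |(a - 4) ^ (mo i).1 * (b - 7) ^ (mo i).2.1 * (c - 11) ^ (mo i).2.2| ≤
          T ^ h34_dg j := by
        rw [abs_mul, abs_mul, abs_pow, abs_pow, abs_pow]
        calc |a - 4| ^ (mo i).1 * |b - 7| ^ (mo i).2.1 * |c - 11| ^ (mo i).2.2
            ≤ T ^ (mo i).1 * T ^ (mo i).2.1 * T ^ (mo i).2.2 := by
              gcongr
          _ = T ^ ((mo i).1 + (mo i).2.1 + (mo i).2.2) := by rw [← pow_add, ← pow_add]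
          _ ≤ T ^ h34_dg j := pow_le_pow_right₀ hT (h3 h0)
      exact mul_le_mul h2 h4 (abs_nonneg _) (by norm_num)
  have h2 : |ff j a b c| ≤ ∑ i : Fin 20, |((cf j i : ℤ) : ℤ) *
      ((a - 4) ^ (mo i).1 * (b - 7) ^ (mo i).2.1 * (c - 11) ^ (mo i).2.2)| :=
    abs_sum_le_sum_abs _ _
  refine (h2.trans (sum_le_sum h1)).trans (le_of_eq ?_)
  rw [sum_const, card_univ, Fintype.card_fin, nsmul_eq_mul]
  push_cast
  ring

theorem st_SIZE : ST_SIZE := by
  intro C hC
  refine ⟨(Nat.factorial 20 : ℤ) * (240 ^ 20 * (C + 11) ^ 45), ?_, ?_⟩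
  · have h0 : (0 : ℤ) < C + 11 := by linarith
    have h1 : (0 : ℤ) < (Nat.factorial 20 : ℤ) := by exact_mod_cast Nat.factorial_pos 20
    have : (0 : ℤ) < (Nat.factorial 20 : ℤ) * (240 ^ 20 * (C + 11) ^ 45) := by positivity
    exact this
  · intro N hN Q hQ
    have hN1 : (1 : ℤ) ≤ (N : ℤ) := by exact_mod_cast hN
    have hT : (1 : ℤ) ≤ (C + 11) * (N : ℤ) := by nlinarith
    have hff : ∀ i j, |MQ Q i j| ≤ 240 * ((C + 11) * (N : ℤ)) ^ h34_dg j := by
      intro i j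
      have h0 := hQ i 0
      have h1 := hQ i 1
      have h2 := hQ i 2
      have hCN : C * (N : ℤ) + 11 ≤ (C + 11) * (N : ℤ) := by nlinarith
      rw [abs_le] at h0 h1 h2
      refine h34_ff hT ?_ ?_ ?_ j
      · rw [abs_le]; constructor <;> linarith [h0.1, h0.2]
      · rw [abs_le]; constructor <;> linarith [h1.1, h1.2]
      · rw [abs_le]; constructor <;> linarith [h2.1, h2.2]
    rw [Matrix.det_apply]
    refine (abs_sum_le_sum_abs _ _).trans ?_
    have h3 : ∀ σ ∈ (univ : Finset (Equiv.Perm (Fin 20))),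
        |Equiv.Perm.sign σ • ∏ i, MQ Q (σ i) i| ≤
          ∏ i : Fin 20, (240 * ((C + 11) * (N : ℤ)) ^ h34_dg i) := by
      intro σ _
      have h4 : |Equiv.Perm.sign σ • ∏ i, MQ Q (σ i) i| = ∏ i, |MQ Q (σ i) i| := by
        rw [← abs_prod]
        rcases Int.units_eq_one_or (Equiv.Perm.sign σ) with h | h
        · rw [h, one_smul]
        · rw [h, Units.neg_smul, one_smul, abs_neg]
      rw [h4]
      exact prod_le_prod (fun i _ => abs_nonneg _) fun i _ => hff (σ i) i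
    refine (sum_le_sum h3).trans (le_of_eq ?_)
    rw [sum_const, card_univ, Fintype.card_perm, Fintype.card_fin, nsmul_eq_mul,
      prod_mul_distrib, prod_const, card_univ, Fintype.card_fin, prod_pow_eq_pow_sum, h34_dgs,
      mul_pow]
    ring

end Pool.Helper17.RS
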